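import Mathlib
import Pool.Agent.W42.RG.Defs2

/-!
# Joint eigenvectors of commuting unitary operators

Part JOINT of project LY.
-/

set_option autoImplicit false
set_option linter.all false

namespace Pool.Agent.W613.LY

open Pool.Agent.W42.RG

variable {H : Type} [NormedAddCommGroup H] [InnerProductSpace ℂ H] [CompleteSpace H]
  {ι κ : Type}

/-- The joint eigenspace. -/
def es (U : ι → H ≃ₗᵢ[ℂ] H) (χ : ι → ℂ) : Submodule ℂ H where
  carrier := {w | ∀ i, U i w = χ i • w}
  add_mem' := by
    intro a b ha hb i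
    rw [map_add, ha i, hb i, smul_add]
  zero_mem' := by
    intro i
    rw [map_zero, smul_zero]
  smul_mem' := by
    intro c x hx i
    rw [map_smul, hx i, smul_comm]

theorem mem_es (U : ι → H ≃ₗᵢ[ℂ] H) (χ : ι → ℂ) (w : H) : w ∈ es U χ ↔ ∀ i, U i w = χ i • w :=
  Iff.rfl

theorem es_closed (U : ι → H ≃ₗᵢ[ℂ] H) (χ : ι → ℂ) : IsClosed (es U χ : Set H) := by
  have e : (es U χ : Set H) = ⋂ i, {w | U i w = χ i • w} := by
    ext w
    simp only [SetLike.mem_coe, mem_es, Set.mem_iInter, Set.mem_setOf_eq]
  rw [e]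
  exact isClosed_iInter fun i => isClosed_eq (U i).continuous (continuous_const_smul _)

instance (U : ι → H ≃ₗᵢ[ℂ] H) (χ : ι → ℂ) : CompleteSpace (es U χ) :=
  (es_closed U χ).completeSpace_coe

theorem comm (U : ι → H ≃ₗᵢ[ℂ] H) (V : H ≃ₗᵢ[ℂ] H) (hc : ∀ i w, U i (V w) = V (U i w))
    (χ : ι → ℂ) (v : H) : (es U χ).starProjection (V v) = V ((es U χ).starProjection v) := by
  symm
  have hQ : (es U χ).starProjection v ∈ es U χ := Submodule.starProjection_apply_mem _ _
  refine (Submodule.eq_starProjection_of_mem_of_inner_eq_zero ?_ ?_).symm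
  · rw [mem_es]
    intro i
    rw [hc, (mem_es U χ _).1 hQ i, map_smul]
  · intro w hw
    rw [← map_sub]
    have hw' : V.symm w ∈ es U χ := by
      rw [mem_es]
      intro i
      apply V.injective
      rw [← hc, V.apply_symm_apply, map_smul, V.apply_symm_apply]
      exact hw i
    have e : w = V (V.symm w) := (V.apply_symm_apply w).symm
    rw [e, V.inner_map_map]
    exact Submodule.starProjection_inner_eq_zero v _ hw'

end Pool.Agent.W613.LY

namespace Pool.Agent.W613.LY

open Pool.Agent.W42.RG

theorem t_JOINT : S_JOINT := by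
  intro H _ _ _ ι κ U V hUV G hGU hGV
  set SU : Set H := {w : H | ∀ i, ∃ c : ℂ, ‖c‖ = 1 ∧ U i w = c • w} with hSU
  set SV : Set H := {w : H | ∀ k, ∃ c : ℂ, ‖c‖ = 1 ∧ V k w = c • w} with hSV
  set SJ : Set H := {w : H | (∀ i, ∃ c : ℂ, ‖c‖ = 1 ∧ U i w = c • w) ∧
    ∀ k, ∃ c : ℂ, ‖c‖ = 1 ∧ V k w = c • w} with hSJ
  set M := (Submodule.span ℂ SJ).topologicalClosure with hM
  have hMc : IsClosed (M : Set H) := Submodule.isClosed_topologicalClosure _
  haveI : CompleteSpace M := hMc.completeSpace_coe
  have hJU : SJ ⊆ SU := fun w hw => hw.1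
  have hJV : SJ ⊆ SV := fun w hw => hw.2
  have hMU : M ≤ (Submodule.span ℂ SU).topologicalClosure :=
    Submodule.topologicalClosure_mono (Submodule.span_mono hJU)
  have hMV : M ≤ (Submodule.span ℂ SV).topologicalClosure :=
    Submodule.topologicalClosure_mono (Submodule.span_mono hJV)
  set G' := G - M.starProjection G with hG'
  have hPM : M.starProjection G ∈ M := Submodule.starProjection_apply_mem _ _
  have hG'U : G' ∈ (Submodule.span ℂ SU).topologicalClosure := Submodule.sub_mem _ hGU (hMU hPM)
  have hG'V : G' ∈ (Submodule.span ℂ SV).topologicalClosure := Submodule.sub_mem _ hGV (hMV hPM)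
  have horth : ∀ m ∈ M, inner ℂ G' m = 0 := fun m hm =>
    Submodule.starProjection_inner_eq_zero G m hm
  -- the projections
  have hQ : ∀ χ : ι → ℂ, (∀ i, ‖χ i‖ = 1) → (es U χ).starProjection G' = 0 := by
    intro χ hχ
    set Q := (es U χ).starProjection with hQdef
    have h1 : (Submodule.span ℂ SV).topologicalClosure ≤ M.comap (Q : H →ₗ[ℂ] H) := by
      refine Submodule.topologicalClosure_minimal _ ?_ ?_
      · rw [Submodule.span_le]
        intro v hv
        show Q v ∈ M
        refine Submodule.le_topologicalClosure _ (Submodule.subset_span ⟨?_, ?_⟩)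
        · intro i
          refine ⟨χ i, hχ i, ?_⟩
          have h2 : Q v ∈ es U χ := Submodule.starProjection_apply_mem _ _
          exact h2 i
        · intro k
          obtain ⟨c, hc, hcv⟩ := hv k
          refine ⟨c, hc, ?_⟩
          rw [← comm U (V k) (fun i w => hUV i k w) χ v, hcv, map_smul]
      · exact hMc.preimage Q.continuous
    have h2 : Q G' ∈ M := h1 hG'V
    have h3 : inner ℂ G' (Q G') = 0 := horth _ h2
    have h4 : inner ℂ (Q G') (Q G') = 0 := by
      rw [hQdef, Submodule.inner_starProjection_left_eq_right,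
        Submodule.starProjection_eq_self_iff.2 (Submodule.starProjection_apply_mem _ _)]
      exact h3
    exact inner_self_eq_zero.1 h4
  have h5 : (Submodule.span ℂ SU).topologicalClosure ≤ (Submodule.span ℂ {G'})ᗮ := by
    refine Submodule.topologicalClosure_minimal _ ?_ (Submodule.isClosed_orthogonal _)
    rw [Submodule.span_le]
    intro u hu
    show u ∈ (Submodule.span ℂ {G'})ᗮ
    rw [Submodule.mem_orthogonal_singleton_iff_inner_left]
    choose χ hχ1 hχ2 using hu
    have h6 : u ∈ es U χ := hχ2
    have h7 : (es U χ).starProjection u = u := Submodule.starProjection_eq_self_iff.2 h6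
    rw [← h7, Submodule.inner_starProjection_left_eq_right, hQ χ hχ1, inner_zero_right]
  have h8 := h5 hG'U
  rw [Submodule.mem_orthogonal_singleton_iff_inner_left] at h8
  have h9 : G' = 0 := inner_self_eq_zero.1 h8
  have h10 : G = M.starProjection G := sub_eq_zero.1 h9
  rw [h10]
  exact hPM

end Pool.Agent.W613.LY
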